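import Pool.Agent.X128.PP.Defs

/-!
# Paneled convex polyhedra: the panels around a vertex
-/

set_option autoImplicit false

open scoped RealInnerProductSpace
open Set Module

namespace Pool.Agent.X128.PP

namespace ConvexPolyhedron

variable (P : ConvexPolyhedron)

theorem mem_panel {i : P.ι} {x : E3} : x ∈ P.panel i ↔ x ∈ P.solid ∧ ⟪P.a i, x⟫ = P.b i :=
  Iff.rfl

theorem panel_sub (i : P.ι) : P.panel i ⊆ P.solid := fun _ hx => hx.1

theorem convex_solid : Convex ℝ P.solid := by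
  have : P.solid = ⋂ i, {x : E3 | ⟪P.a i, x⟫ ≤ P.b i} := by
    ext x; simp [solid]
  rw [this]
  refine convex_iInter fun i => ?_
  exact convex_halfSpace_le (f := fun x : E3 => ⟪P.a i, x⟫)
    ⟨fun x y => inner_add_right _ _ _, fun c x => by simp [inner_smul_right]⟩ _

theorem finrank_panel (i : P.ι) : finrank ℝ (vectorSpan ℝ (P.panel i)) = 2 := P.two_dim i

theorem panel_nonempty (i : P.ι) : (P.panel i).Nonempty := by
  rw [Set.nonempty_iff_ne_empty]
  intro h
  have := P.finrank_panel i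
  rw [h, vectorSpan_empty, finrank_bot] at this
  omega

theorem panel_inj {i j : P.ι} (h : P.panel i = P.panel j) : i = j := P.distinct i j h

/-- if the direction spaces agree and the panels meet, the panels agree. -/
theorem sub_of_span {i j : P.ι} (h : vectorSpan ℝ (P.panel j) ≤ vectorSpan ℝ (P.panel i))
    {p : E3} (hpi : p ∈ P.panel i) (hpj : p ∈ P.panel j) : P.panel j ⊆ P.panel i := by
  intro x hx
  refine ⟨hx.1, ?_⟩
  have h1 : x - p ∈ vectorSpan ℝ (P.panel i) := h (vsub_mem_vectorSpan ℝ hx hpj)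
  have h2 : vectorSpan ℝ (P.panel i) ≤ (ℝ ∙ P.a i)ᗮ := by
    rw [vectorSpan_def, Submodule.span_le]
    rintro _ ⟨y, hy, z, hz, rfl⟩
    rw [SetLike.mem_coe, Submodule.mem_orthogonal_singleton_iff_inner_right]
    simp only [vsub_eq_sub, inner_sub_right, hy.2, hz.2, sub_self]
  have h3 := h2 h1
  rw [Submodule.mem_orthogonal_singleton_iff_inner_right, inner_sub_right, sub_eq_zero] at h3
  rw [h3]; exact hpi.2

theorem exists_not_mem {i j : P.ι} (h : i ≠ j) : ∃ p ∈ P.panel i, p ∉ P.panel j := by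
  by_contra hcon
  push Not at hcon
  have hsub : P.panel i ⊆ P.panel j := hcon
  have hle : vectorSpan ℝ (P.panel i) ≤ vectorSpan ℝ (P.panel j) := vectorSpan_mono ℝ hsub
  have heq : vectorSpan ℝ (P.panel i) = vectorSpan ℝ (P.panel j) :=
    Submodule.eq_of_le_of_finrank_eq hle (by rw [P.finrank_panel, P.finrank_panel])
  obtain ⟨p, hp⟩ := P.panel_nonempty i
  have := P.sub_of_span (i := i) (j := j) heq.ge hp (hsub hp)
  exact h (P.panel_inj (hsub.antisymm this))

/-- small steps in a direction allowed by the active constraints stay in the solid. -/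
theorem exists_small {v d : E3} (hv : v ∈ P.solid)
    (hd : ∀ k, ⟪P.a k, v⟫ = P.b k → ⟪P.a k, d⟫ ≤ 0) : ∃ δ : ℝ, 0 < δ ∧ v + δ • d ∈ P.solid := by
  have := P.finite
  have h : ∀ k, ∀ᶠ δ : ℝ in nhdsWithin 0 (Ioi 0), ⟪P.a k, v + δ • d⟫ ≤ P.b k := by
    intro k
    rcases (hv k).lt_or_eq with hk | hk
    · have hc : Continuous fun δ : ℝ => ⟪P.a k, v + δ • d⟫ := by fun_prop
      have h0 : ∀ᶠ δ : ℝ in nhds 0, ⟪P.a k, v + δ • d⟫ < P.b k := by
        refine (hc.tendsto 0).eventually_lt_const ?_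
        simpa using hk
      exact (h0.filter_mono nhdsWithin_le_nhds).mono fun _ h => h.le
    · filter_upwards [self_mem_nhdsWithin] with δ hδ
      rw [inner_add_right, inner_smul_right, hk]
      have := mul_nonpos_of_nonneg_of_nonpos (le_of_lt hδ) (hd k hk)
      linarith
  have hall : ∀ᶠ δ : ℝ in nhdsWithin 0 (Ioi 0), ∀ k, ⟪P.a k, v + δ • d⟫ ≤ P.b k :=
    Filter.eventually_all.2 h
  obtain ⟨δ, hδ, h2⟩ := (hall.and self_mem_nhdsWithin).exists
  exact ⟨δ, h2, hδ⟩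

/-- **The panels around a vertex.** Let `v` be a vertex and `u ≠ v` another point of the panels
`i ≠ j`, both containing `v`. If the panels are divided into two classes, `i` and `j` in
different ones, then some panels `k, l ∋ v` of different classes have a common point outside
`panel i ∩ panel j`. -/
theorem chain {v u : E3} (hv : P.IsVertex v) (huv : u ≠ v) {i j : P.ι} (hij : i ≠ j)
    (hvi : v ∈ P.panel i) (hvj : v ∈ P.panel j) (hui : u ∈ P.panel i) (huj : u ∈ P.panel j)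
    (c : P.ι → Prop) (hci : c i) (hcj : ¬ c j) :
    ∃ k l, c k ∧ ¬ c l ∧ v ∈ P.panel k ∧ v ∈ P.panel l ∧
      ∃ x, x ∈ P.panel k ∧ x ∈ P.panel l ∧ ¬ (x ∈ P.panel i ∧ x ∈ P.panel j) := by
  classical
  have := P.finite
  have := Fintype.ofFinite P.ι
  obtain ⟨pi, hpi, hpij⟩ := P.exists_not_mem hij
  obtain ⟨pj, hpj, hpji⟩ := P.exists_not_mem hij.symm
  have hpij' : ⟪P.a j, pi⟫ < P.b j := lt_of_le_of_ne (hpi.1 j) fun h => hpij ⟨hpi.1, h⟩
  have hpji' : ⟪P.a i, pj⟫ < P.b i := lt_of_le_of_ne (hpj.1 i) fun h => hpji ⟨hpj.1, h⟩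
  set w : E3 := v - u with hw
  have hvs : v ∈ P.solid := hvi.1
  have hus : u ∈ P.solid := hui.1
  -- active constraints have nonnegative slope in direction `w`
  have hslope : ∀ k, ⟪P.a k, v⟫ = P.b k → 0 ≤ ⟪P.a k, w⟫ := by
    intro k hk
    rw [hw, inner_sub_right, hk]
    linarith [hus k]
  have hwi : ⟪P.a i, w⟫ = 0 := by rw [hw, inner_sub_right, hvi.2, hui.2, sub_self]
  have hwj : ⟪P.a j, w⟫ = 0 := by rw [hw, inner_sub_right, hvj.2, huj.2, sub_self]
  -- some active constraint has positive slope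
  obtain ⟨k0, hk0, hk0'⟩ : ∃ k, ⟪P.a k, v⟫ = P.b k ∧ 0 < ⟪P.a k, w⟫ := by
    by_contra hcon
    push Not at hcon
    obtain ⟨δ, hδ, hmem⟩ := P.exists_small hvs hcon
    have hseg : v ∈ openSegment ℝ u (v + δ • w) := by
      refine ⟨δ / (1 + δ), 1 / (1 + δ), by positivity, by positivity, by field_simp; ring, ?_⟩
      rw [hw]
      have h1 : (1 + δ) ≠ 0 := by positivity
      rw [smul_add, smul_smul, smul_sub]
      have e1 : 1 / (1 + δ) * δ = δ / (1 + δ) := by field_simp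
      rw [e1]
      have e2 : (1 / (1 + δ)) • v + (δ / (1 + δ)) • v = v := by
        rw [← add_smul]
        have : 1 / (1 + δ) + δ / (1 + δ) = 1 := by field_simp
        rw [this, one_smul]
      calc (δ / (1 + δ)) • u + ((1 / (1 + δ)) • v + ((δ / (1 + δ)) • v - (δ / (1 + δ)) • u))
          = (1 / (1 + δ)) • v + (δ / (1 + δ)) • v := by abel
        _ = v := e2
    exact huv (hv.2 hus hmem hseg)
  set K : Finset P.ι := Finset.univ.filter fun k => ⟪P.a k, v⟫ = P.b k ∧ 0 < ⟪P.a k, w⟫ with hK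
  have hKne : K.Nonempty := ⟨k0, by simp [hK, hk0, hk0']⟩
  -- the path
  let y : ℝ → E3 := fun t => (1 - t) • pi + t • pj - v
  let r : P.ι → ℝ → ℝ := fun k t => - ⟪P.a k, y t⟫ / ⟪P.a k, w⟫
  let h : ℝ → ℝ := fun t => K.inf' hKne fun k => r k t
  let X : ℝ → E3 := fun t => y t + h t • w
  have hyc : Continuous y := by
    show Continuous fun t : ℝ => (1 - t) • pi + t • pj - v
    fun_prop
  have hrc : ∀ k, Continuous (r k) := by
    intro k
    show Continuous fun t => - ⟪P.a k, y t⟫ / ⟪P.a k, w⟫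
    fun_prop
  have hhc : Continuous h := Continuous.finset_inf'_apply hKne fun k _ => hrc k
  have hXc : Continuous X := by
    show Continuous fun t => y t + h t • w
    fun_prop
  have hq : ∀ t ∈ Icc (0 : ℝ) 1, (1 - t) • pi + t • pj ∈ P.solid := by
    intro t ht
    exact P.convex_solid hpi.1 hpj.1 (by linarith [ht.2]) ht.1 (by ring)
  have hyle : ∀ t ∈ Icc (0 : ℝ) 1, ∀ k, ⟪P.a k, v⟫ = P.b k → ⟪P.a k, y t⟫ ≤ 0 := by
    intro t ht k hk
    show ⟪P.a k, (1 - t) • pi + t • pj - v⟫ ≤ 0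
    rw [inner_sub_right, hk]
    linarith [hq t ht k]
  have hXle : ∀ t ∈ Icc (0 : ℝ) 1, ∀ k, ⟪P.a k, v⟫ = P.b k → ⟪P.a k, X t⟫ ≤ 0 := by
    intro t ht k hk
    show ⟪P.a k, y t + h t • w⟫ ≤ 0
    rw [inner_add_right, inner_smul_right]
    rcases (hslope k hk).lt_or_eq with hp | hz
    · have hkK : k ∈ K := by simp [hK, hk, hp]
      have h1 : h t ≤ r k t := Finset.inf'_le _ hkK
      have h2 : h t * ⟪P.a k, w⟫ ≤ r k t * ⟪P.a k, w⟫ := mul_le_mul_of_nonneg_right h1 hp.le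
      have h3 : r k t * ⟪P.a k, w⟫ = - ⟪P.a k, y t⟫ := by
        show - ⟪P.a k, y t⟫ / ⟪P.a k, w⟫ * ⟪P.a k, w⟫ = _
        field_simp
      linarith
    · rw [← hz, mul_zero, add_zero]
      exact hyle t ht k hk
  have hXact : ∀ t, ∃ k, ⟪P.a k, v⟫ = P.b k ∧ ⟪P.a k, X t⟫ = 0 := by
    intro t
    obtain ⟨k, hk, hk2⟩ := Finset.exists_mem_eq_inf' hKne fun k => r k t
    have hk' : ⟪P.a k, v⟫ = P.b k ∧ 0 < ⟪P.a k, w⟫ := by simpa [hK] using hk
    refine ⟨k, hk'.1, ?_⟩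
    show ⟪P.a k, y t + h t • w⟫ = 0
    rw [inner_add_right, inner_smul_right]
    have : h t = r k t := hk2
    rw [this]
    show ⟪P.a k, y t⟫ + - ⟪P.a k, y t⟫ / ⟪P.a k, w⟫ * ⟪P.a k, w⟫ = 0
    have := hk'.2.ne'
    field_simp
    ring
  have hXi : ∀ t, ⟪P.a i, X t⟫ = t * (⟪P.a i, pj⟫ - P.b i) := by
    intro t
    show ⟪P.a i, (1 - t) • pi + t • pj - v + h t • w⟫ = _
    rw [inner_add_right, inner_sub_right, inner_add_right, inner_smul_right, inner_smul_right,
      inner_smul_right, hwi, hpi.2, hvi.2]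
    ring
  have hXj : ∀ t, ⟪P.a j, X t⟫ = (1 - t) * (⟪P.a j, pi⟫ - P.b j) := by
    intro t
    show ⟪P.a j, (1 - t) • pi + t • pj - v + h t • w⟫ = _
    rw [inner_add_right, inner_sub_right, inner_add_right, inner_smul_right, inner_smul_right,
      inner_smul_right, hwj, hpj.2, hvj.2]
    ring
  -- the two closed sets
  let TA : Set ℝ := ⋃ k ∈ {k : P.ι | ⟪P.a k, v⟫ = P.b k ∧ c k}, {t | ⟪P.a k, X t⟫ = 0}
  let TB : Set ℝ := ⋃ k ∈ {k : P.ι | ⟪P.a k, v⟫ = P.b k ∧ ¬ c k}, {t | ⟪P.a k, X t⟫ = 0}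
  have hcl : ∀ k, IsClosed {t | ⟪P.a k, X t⟫ = 0} := fun k =>
    isClosed_eq (by fun_prop) continuous_const
  have hTA : IsClosed TA := (Set.toFinite _).isClosed_biUnion fun k _ => hcl k
  have hTB : IsClosed TB := (Set.toFinite _).isClosed_biUnion fun k _ => hcl k
  have hcover : Icc (0 : ℝ) 1 ⊆ TA ∪ TB := by
    intro t _
    obtain ⟨k, hk, hk2⟩ := hXact t
    by_cases hc : c k
    · left; exact Set.mem_biUnion (x := k) ⟨hk, hc⟩ hk2
    · right; exact Set.mem_biUnion (x := k) ⟨hk, hc⟩ hk2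
  have h0 : (Icc (0 : ℝ) 1 ∩ TA).Nonempty :=
    ⟨0, ⟨le_refl _, zero_le_one⟩, Set.mem_biUnion (x := i) ⟨hvi.2, hci⟩ (by
      show ⟪P.a i, X 0⟫ = 0
      rw [hXi]; ring)⟩
  have h1 : (Icc (0 : ℝ) 1 ∩ TB).Nonempty :=
    ⟨1, ⟨zero_le_one, le_refl _⟩, Set.mem_biUnion (x := j) ⟨hvj.2, hcj⟩ (by
      show ⟪P.a j, X 1⟫ = 0
      rw [hXj]; ring)⟩
  obtain ⟨t, ht, htA, htB⟩ := isPreconnected_closed_iff.1 isPreconnected_Icc TA TB hTA hTB
    hcover h0 h1
  simp only [TA, TB, Set.mem_iUnion, Set.mem_ofPred_eq, exists_prop] at htA htB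
  obtain ⟨k, ⟨hk, hck⟩, hkX⟩ := htA
  obtain ⟨l, ⟨hl, hcl'⟩, hlX⟩ := htB
  obtain ⟨δ, hδ, hmem⟩ := P.exists_small hvs (hXle t ht)
  refine ⟨k, l, hck, hcl', ⟨hvs, hk⟩, ⟨hvs, hl⟩, v + δ • X t, ⟨hmem, ?_⟩, ⟨hmem, ?_⟩, ?_⟩
  · rw [inner_add_right, inner_smul_right, hk, hkX]; ring
  · rw [inner_add_right, inner_smul_right, hl, hlX]; ring
  · rintro ⟨hxi, hxj⟩
    have e1 := hxi.2
    have e2 := hxj.2
    rw [inner_add_right, inner_smul_right, hvi.2, hXi] at e1
    rw [inner_add_right, inner_smul_right, hvj.2, hXj] at e2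
    have f1 : δ * (t * (⟪P.a i, pj⟫ - P.b i)) = 0 := by linarith
    have f2 : δ * ((1 - t) * (⟪P.a j, pi⟫ - P.b j)) = 0 := by linarith
    have g1 : t = 0 := by
      rcases mul_eq_zero.1 f1 with h | h
      · exact absurd h hδ.ne'
      · rcases mul_eq_zero.1 h with h | h
        · exact h
        · linarith
    have g2 : 1 - t = 0 := by
      rcases mul_eq_zero.1 f2 with h | h
      · exact absurd h hδ.ne'
      · rcases mul_eq_zero.1 h with h | h
        · exact h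
        · linarith
    linarith

end ConvexPolyhedron

end Pool.Agent.X128.PP
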