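import Mathlib

/-!
# Paneled convex polyhedra cut along edges: definitions
-/

set_option autoImplicit false

open scoped RealInnerProductSpace

namespace Pool.Agent.X128.PP

/-- Euclidean three-space. -/
abbrev E3 : Type := EuclideanSpace ℝ (Fin 3)

/-- A convex polyhedron in `ℝ³`, given by its facets: a bounded set with interior points that is
the solution set of finitely many linear inequalities `⟪a i, x⟫ ≤ b i`, one for each facet. The
equality case of each inequality is a two-dimensional face, and different inequalities give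
different faces. -/
structure ConvexPolyhedron where
  /-- the index set of the facets -/
  ι : Type
  /-- there are finitely many facets -/
  finite : Finite ι
  /-- the outer normals -/
  a : ι → E3
  /-- the support numbers -/
  b : ι → ℝ
  bounded : Bornology.IsBounded {x : E3 | ∀ i, ⟪a i, x⟫ ≤ b i}
  interior_nonempty : (interior {x : E3 | ∀ i, ⟪a i, x⟫ ≤ b i}).Nonempty
  two_dim : ∀ i, Module.finrank ℝ
    (vectorSpan ℝ {x : E3 | (∀ j, ⟪a j, x⟫ ≤ b j) ∧ ⟪a i, x⟫ = b i}) = 2
  distinct : ∀ i j, {x : E3 | (∀ k, ⟪a k, x⟫ ≤ b k) ∧ ⟪a i, x⟫ = b i} =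
    {x : E3 | (∀ k, ⟪a k, x⟫ ≤ b k) ∧ ⟪a j, x⟫ = b j} → i = j

namespace ConvexPolyhedron

/-- The solid polyhedron. -/
def solid (P : ConvexPolyhedron) : Set E3 := {x | ∀ i, ⟪P.a i, x⟫ ≤ P.b i}

/-- The panel number `i`: the `i`-th two-dimensional face. -/
def panel (P : ConvexPolyhedron) (i : P.ι) : Set E3 :=
  {x | (∀ j, ⟪P.a j, x⟫ ≤ P.b j) ∧ ⟪P.a i, x⟫ = P.b i}

/-- The edges of `P`: its one-dimensional faces. -/
def IsEdge (P : ConvexPolyhedron) (e : Set E3) : Prop :=
  IsExposed ℝ P.solid e ∧ Module.finrank ℝ (vectorSpan ℝ e) = 1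

/-- The vertices of `P`. -/
def IsVertex (P : ConvexPolyhedron) (v : E3) : Prop := v ∈ P.solid.extremePoints ℝ

/-- `M` is a matching of the 1-skeleton: a set of edges no two of which share an endpoint. -/
def IsMatching (P : ConvexPolyhedron) (M : Set (Set E3)) : Prop :=
  (∀ e ∈ M, P.IsEdge e) ∧
    ∀ e ∈ M, ∀ e' ∈ M, e ≠ e' → ¬ ∃ v, P.IsVertex v ∧ v ∈ e ∧ v ∈ e'

/-- `φ` is a motion of the paneled polyhedron of `P` cut along the edges in `M`: at time `t` the
panel `i` is moved by the Euclidean isometry `φ i t`; the motion is continuous, it starts at `P`,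
and for every edge `e` that is not cut the two panels containing `e` stay hinged along `e`, i.e.
each point of `e` is moved to the same place by both. -/
def IsMotion (P : ConvexPolyhedron) (M : Set (Set E3))
    (φ : P.ι → unitInterval → (E3 ≃ᵃⁱ[ℝ] E3)) : Prop :=
  (∀ i x, Continuous fun t => φ i t x) ∧
  (∀ i x, φ i 0 x = x) ∧
  ∀ e, P.IsEdge e → e ∉ M → ∀ i j, e ⊆ P.panel i → e ⊆ P.panel j →
    ∀ t, ∀ x ∈ e, φ i t x = φ j t x

/-- The paneled polyhedron of `P` cut along the edges in `M` is rigid: every motion moves all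
panels by one common isometry at each time. -/
def IsRigid (P : ConvexPolyhedron) (M : Set (Set E3)) : Prop :=
  ∀ φ, P.IsMotion M φ → ∀ t, ∃ g : E3 ≃ᵃⁱ[ℝ] E3, ∀ i, ∀ x ∈ P.panel i, φ i t x = g x

end ConvexPolyhedron

end Pool.Agent.X128.PP
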