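import Pool.Agent.X128.PP.Chain

/-!
# Cutting along a matching does not create motions
-/

set_option autoImplicit false

open scoped RealInnerProductSpace
open Set Module

namespace Pool.Agent.X128.PP

namespace ConvexPolyhedron

variable (P : ConvexPolyhedron)

theorem isExposed_panel (i : P.ι) : IsExposed ℝ P.solid (P.panel i) := by
  intro _
  obtain ⟨p, hp⟩ := P.panel_nonempty i
  refine ⟨innerSL ℝ (P.a i), ?_⟩
  ext x
  constructor
  · rintro ⟨hx, hxi⟩
    refine ⟨hx, fun y hy => ?_⟩
    simp only [innerSL_apply_apply]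
    rw [hxi]; exact hy i
  · rintro ⟨hx, hmax⟩
    refine ⟨hx, le_antisymm (hx i) ?_⟩
    have := hmax p hp.1
    simp only [innerSL_apply_apply] at this
    rw [hp.2] at this
    exact this

/-- two distinct panels with two distinct common points meet in an edge. -/
theorem isEdge_inter {k l : P.ι} (hkl : k ≠ l) {v x : E3} (hvk : v ∈ P.panel k)
    (hvl : v ∈ P.panel l) (hxk : x ∈ P.panel k) (hxl : x ∈ P.panel l) (hne : x ≠ v) :
    P.IsEdge (P.panel k ∩ P.panel l) := by
  refine ⟨(P.isExposed_panel k).inter (P.isExposed_panel l), ?_⟩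
  set V := vectorSpan ℝ (P.panel k ∩ P.panel l) with hV
  have hVk : V ≤ vectorSpan ℝ (P.panel k) := vectorSpan_mono ℝ inter_subset_left
  have hVl : V ≤ vectorSpan ℝ (P.panel l) := vectorSpan_mono ℝ inter_subset_right
  have hlt : finrank ℝ V < 2 := by
    by_contra hge
    push Not at hge
    have h1 : finrank ℝ V ≤ 2 := by
      rw [← P.finrank_panel k]; exact Submodule.finrank_mono hVk
    have h2 : finrank ℝ V = 2 := le_antisymm h1 hge
    have e1 : V = vectorSpan ℝ (P.panel k) :=
      Submodule.eq_of_le_of_finrank_eq hVk (by rw [h2, P.finrank_panel])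
    have e2 : V = vectorSpan ℝ (P.panel l) :=
      Submodule.eq_of_le_of_finrank_eq hVl (by rw [h2, P.finrank_panel])
    have e3 : vectorSpan ℝ (P.panel k) = vectorSpan ℝ (P.panel l) := e1.symm.trans e2
    have s1 := P.sub_of_span (i := l) (j := k) e3.le hvl hvk
    have s2 := P.sub_of_span (i := k) (j := l) e3.ge hvk hvl
    exact hkl (P.panel_inj (s1.antisymm s2))
  have hpos : 0 < finrank ℝ V := by
    rw [finrank_pos_iff_exists_ne_zero]
    refine ⟨⟨x - v, vsub_mem_vectorSpan ℝ (p₁ := x) (p₂ := v) ⟨hxk, hxl⟩ ⟨hvk, hvl⟩⟩, ?_⟩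
    intro h
    exact hne (sub_eq_zero.1 (congrArg Subtype.val h))
  omega

theorem isCompact_solid : IsCompact P.solid := by
  refine Metric.isCompact_of_isClosed_isBounded ?_ P.bounded
  have : P.solid = ⋂ i, {x : E3 | ⟪P.a i, x⟫ ≤ P.b i} := by
    ext x; simp [solid]
  rw [this]
  exact isClosed_iInter fun i => isClosed_le (by fun_prop) continuous_const

/-- a set of edges that is a matching does not separate the panels at the endpoints. -/
theorem agree_at_vertex {M : Set (Set E3)} (hM : P.IsMatching M)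
    {φ : P.ι → unitInterval → (E3 ≃ᵃⁱ[ℝ] E3)} (hφ : P.IsMotion M φ) {e : Set E3} (heM : e ∈ M)
    {i j : P.ι} (hei : e ⊆ P.panel i) (hej : e ⊆ P.panel j) (t : unitInterval) {v : E3}
    (hve : v ∈ e) (hv : P.IsVertex v) : φ i t v = φ j t v := by
  by_cases hij : i = j
  · rw [hij]
  by_contra hcon
  have hedge := hM.1 e heM
  -- another point of the edge
  obtain ⟨u, hue, huv⟩ : ∃ u ∈ e, u ≠ v := by
    by_contra hno
    push Not at hno
    have hsub : e ⊆ {v} := fun x hx => hno x hx
    have h1 : vectorSpan ℝ e ≤ vectorSpan ℝ ({v} : Set E3) := vectorSpan_mono ℝ hsub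
    rw [vectorSpan_singleton, le_bot_iff] at h1
    have h2 := hedge.2
    rw [h1, finrank_bot] at h2
    omega
  obtain ⟨k, l, hk, hl, hvk, hvl, x, hxk, hxl, hx⟩ := P.chain hv huv hij (hei hve) (hej hve)
    (hei hue) (hej hue) (fun k => φ k t v = φ i t v) rfl (fun h => hcon h.symm)
  have hkl : k ≠ l := fun h => hl (h ▸ hk)
  have hxv : x ≠ v := fun h => hx ⟨h ▸ hei hve, h ▸ hej hve⟩
  have hE := P.isEdge_inter hkl hvk hvl hxk hxl hxv
  have hEM : P.panel k ∩ P.panel l ∉ M := by
    intro hmem
    refine hM.2 e heM _ hmem ?_ ⟨v, hv, hve, hvk, hvl⟩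
    intro h
    have : x ∈ e := by rw [h]; exact ⟨hxk, hxl⟩
    exact hx ⟨hei this, hej this⟩
  have := hφ.2.2 _ hE hEM k l inter_subset_left inter_subset_right t v ⟨hvk, hvl⟩
  exact hl (this ▸ hk)

/-- hinges along the cut edges are respected. -/
theorem agree_on_edge {M : Set (Set E3)} (hM : P.IsMatching M)
    {φ : P.ι → unitInterval → (E3 ≃ᵃⁱ[ℝ] E3)} (hφ : P.IsMotion M φ) {e : Set E3} (heM : e ∈ M)
    {i j : P.ι} (hei : e ⊆ P.panel i) (hej : e ⊆ P.panel j) (t : unitInterval) {x : E3}
    (hx : x ∈ e) : φ i t x = φ j t x := by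
  have hexp := (hM.1 e heM).1
  have hcomp : IsCompact e := hexp.isCompact P.isCompact_solid
  have hconv : Convex ℝ e := hexp.convex P.convex_solid
  have hKM := closure_convexHull_extremePoints hcomp hconv
  let S : Set E3 := {y | φ i t y = φ j t y}
  have hSc : IsClosed S := isClosed_eq (φ i t).continuous (φ j t).continuous
  have hSconv : Convex ℝ S := by
    intro y hy z hz p q hp hq hpq
    show φ i t (p • y + q • z) = φ j t (p • y + q • z)
    have h1 : p • y + q • z = AffineMap.lineMap y z q := by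
      rw [AffineMap.lineMap_apply_module]
      congr 2
      linarith
    have hy' : φ i t y = φ j t y := hy
    have hz' : φ i t z = φ j t z := hz
    have h2 : ∀ f : E3 ≃ᵃⁱ[ℝ] E3, f (AffineMap.lineMap y z q) =
        AffineMap.lineMap (f y) (f z) q := fun f =>
      (f.toAffineEquiv : E3 →ᵃ[ℝ] E3).apply_lineMap y z q
    rw [h1, h2, h2, hy', hz']
  have hsub : e.extremePoints ℝ ⊆ S := by
    intro v hv
    have hve : v ∈ e := hv.1
    have hvP : P.IsVertex v := hexp.isExtreme.extremePoints_subset_extremePoints hv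
    exact P.agree_at_vertex hM hφ heM hei hej t hve hvP
  have : x ∈ closure (convexHull ℝ (e.extremePoints ℝ)) := by rw [hKM]; exact hx
  exact closure_minimal (convexHull_min hsub hSconv) hSc this

theorem isMotion_iff {M : Set (Set E3)} (hM : P.IsMatching M)
    (φ : P.ι → unitInterval → (E3 ≃ᵃⁱ[ℝ] E3)) : P.IsMotion M φ ↔ P.IsMotion ∅ φ := by
  constructor
  · intro h
    refine ⟨h.1, h.2.1, fun e he _ i j hi hj t x hx => ?_⟩
    by_cases heM : e ∈ M
    · exact P.agree_on_edge hM h heM hi hj t hx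
    · exact h.2.2 e he heM i j hi hj t x hx
  · intro h
    exact ⟨h.1, h.2.1, fun e he _ => h.2.2 e he (Set.notMem_empty e)⟩

theorem isRigid_iff {M : Set (Set E3)} (hM : P.IsMatching M) : P.IsRigid M ↔ P.IsRigid ∅ := by
  constructor
  · intro h φ hφ
    exact h φ ((P.isMotion_iff hM φ).2 hφ)
  · intro h φ hφ
    exact h φ ((P.isMotion_iff hM φ).1 hφ)

end ConvexPolyhedron

end Pool.Agent.X128.PP
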